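import Mathlib
import Pool.Agent.Helper53_Quad.Main

/-!
# Perpendicular quadrisecting chords of a plane convex figure

For every plane convex figure `F` and every pair of perpendicular chords which quadrisect its
perimeter `L(F)`, we prove `2 (|c₁| + |c₂|) ≥ L(F)`, with equality only if `F` is a rectangle.
-/

namespace Pool.Agent.Results.MP_bff4fe_gt.PerpQuadrisect

open Set
open scoped ENNReal

/-- The Euclidean plane. -/
abbrev Plane : Type := EuclideanSpace ℝ (Fin 2)

/-- `γ` is a parametrization, with period `1`, of the boundary of `F` as a simple closed curve: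
it is continuous, `1`-periodic, injective on `[0,1)`, and its range is the topological boundary
of `F`. -/
structure IsBoundaryCurve (F : Set Plane) (γ : ℝ → Plane) : Prop where
  continuous : Continuous γ
  periodic : Function.Periodic γ 1
  injOn : InjOn γ (Ico 0 1)
  range_eq : range γ = frontier F

/-- The chords `[p₁, q₁]` and `[p₂, q₂]` quadrisect the perimeter of `F`, where `γ` is a boundary
curve of `F`: the four points are `γ t₁, γ t₂, γ t₃, γ t₄` (in the order `p₁, p₂, q₁, q₂`) for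
parameters `t₁ < t₂ < t₃ < t₄ < t₁ + 1` (one period), and each of the four arcs of the curve between
consecutive points has length one quarter of the length of the whole closed curve. Here the length
of an arc is the total variation (`eVariationOn`) of `γ` on the corresponding interval. -/
def Quadrisect (γ : ℝ → Plane) (p₁ q₁ p₂ q₂ : Plane) : Prop :=
  ∃ t₁ t₂ t₃ t₄ : ℝ, t₁ < t₂ ∧ t₂ < t₃ ∧ t₃ < t₄ ∧ t₄ < t₁ + 1 ∧
    γ t₁ = p₁ ∧ γ t₂ = p₂ ∧ γ t₃ = q₁ ∧ γ t₄ = q₂ ∧
    eVariationOn γ (Icc t₁ t₂) = eVariationOn γ (Icc 0 1) / 4 ∧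
    eVariationOn γ (Icc t₂ t₃) = eVariationOn γ (Icc 0 1) / 4 ∧
    eVariationOn γ (Icc t₃ t₄) = eVariationOn γ (Icc 0 1) / 4 ∧
    eVariationOn γ (Icc t₄ (t₁ + 1)) = eVariationOn γ (Icc 0 1) / 4

/-- `F` is a (nondegenerate) rectangle with a vertex `c` and orthogonal side vectors `u`, `v`. -/
def IsRectangle (F : Set Plane) : Prop :=
  ∃ c u v : Plane, u ≠ 0 ∧ v ≠ 0 ∧ inner ℝ u v = 0 ∧
    F = {x | ∃ s ∈ Icc (0 : ℝ) 1, ∃ t ∈ Icc (0 : ℝ) 1, x = c + s • u + t • v}

open Pool.Agent.Helper53_Quad in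
theorem aux (F : Set Plane) (hconv : Convex ℝ F) (hcomp : IsCompact F)
    (hint : (interior F).Nonempty) (γ : ℝ → Plane) (hγ : IsBoundaryCurve F γ)
    (p₁ q₁ p₂ q₂ : Plane) (hquad : Quadrisect γ p₁ q₁ p₂ q₂)
    (hperp : inner ℝ (p₁ - q₁) (p₂ - q₂) = 0) :
    eVariationOn γ (Icc 0 1) ≤ ENNReal.ofReal (2 * (dist p₁ q₁ + dist p₂ q₂)) ∧
    (eVariationOn γ (Icc 0 1) = ENNReal.ofReal (2 * (dist p₁ q₁ + dist p₂ q₂)) →
      IsRectangle F) := by
  obtain ⟨t₁, t₂, t₃, t₄, h12, h23, h34, h41, rfl, rfl, rfl, rfl, v1, v2, v3, v4⟩ := hquad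
  -- injectivity within a period
  have hinj : ∀ s t, s < t → t < s + 1 → γ s ≠ γ t := by
    intro s t hst hts heq
    obtain ⟨n, hn⟩ : ∃ n : ℤ, n = ⌊s⌋ := ⟨_, rfl⟩
    obtain ⟨m, hm⟩ : ∃ m : ℤ, m = ⌊t⌋ := ⟨_, rfl⟩
    have e1 : γ (Int.fract s) = γ s := by
      have := hγ.periodic.sub_int_mul_eq (x := s) ⌊s⌋
      rw [mul_one] at this
      exact this
    have e2 : γ (Int.fract t) = γ t := by
      have := hγ.periodic.sub_int_mul_eq (x := t) ⌊t⌋
      rw [mul_one] at this
      exact this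
    have hf : Int.fract s = Int.fract t :=
      hγ.injOn ⟨Int.fract_nonneg s, Int.fract_lt_one s⟩ ⟨Int.fract_nonneg t, Int.fract_lt_one t⟩
        (by rw [e1, e2, heq])
    obtain ⟨z, hz⟩ := Int.fract_eq_fract.mp hf
    have h1 : (z : ℝ) < 0 := by rw [← hz]; linarith
    have h2 : (-1 : ℝ) < z := by rw [← hz]; linarith
    have h1' : z < 0 := by exact_mod_cast h1
    have h2' : -1 < z := by exact_mod_cast h2
    omega
  have hc1 : γ t₁ - γ t₃ ≠ 0 := sub_ne_zero.mpr (hinj t₁ t₃ (by linarith) (by linarith))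
  have hc2 : γ t₂ - γ t₄ ≠ 0 := sub_ne_zero.mpr (hinj t₂ t₄ (by linarith) (by linarith))
  obtain ⟨d1, hd1⟩ : ∃ d1, d1 = ‖γ t₁ - γ t₃‖ := ⟨_, rfl⟩
  obtain ⟨d2, hd2⟩ : ∃ d2, d2 = ‖γ t₂ - γ t₄‖ := ⟨_, rfl⟩
  have hd1pos : 0 < d1 := by rw [hd1]; exact norm_pos_iff.mpr hc1
  have hd2pos : 0 < d2 := by rw [hd2]; exact norm_pos_iff.mpr hc2
  -- orthonormal frame
  let e : Fin 2 → Plane := ![d1⁻¹ • (γ t₁ - γ t₃), d2⁻¹ • (γ t₂ - γ t₄)]
  have hon : Orthonormal ℝ e := by
    constructor
    · intro i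
      fin_cases i
      · simp [e, norm_smul, ← hd1, abs_of_pos hd1pos, hd1pos.ne']
      · simp [e, norm_smul, ← hd2, abs_of_pos hd2pos, hd2pos.ne']
    · intro i j hij
      fin_cases i <;> fin_cases j
      · exact absurd rfl hij
      · simp [e, inner_smul_left, inner_smul_right, hperp]
      · change inner ℝ (d2⁻¹ • (γ t₂ - γ t₄)) (d1⁻¹ • (γ t₁ - γ t₃)) = 0
        rw [inner_smul_left, inner_smul_right, real_inner_comm, hperp]
        simp
      · exact absurd rfl hij
  obtain ⟨b, hb⟩ := Orthonormal.exists_orthonormalBasis_extension_of_card_eq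
    (ι := Fin 2) (𝕜 := ℝ) (E := Plane) (by simp) (v := e) (s := univ)
    (hon.comp _ Subtype.val_injective)
  have hb0 : b 0 = e 0 := hb 0 (mem_univ _)
  have hb1 : b 1 = e 1 := hb 1 (mem_univ _)
  let T0 : Plane ≃ₗᵢ[ℝ] ℂ := b.repr.trans Complex.orthonormalBasisOneI.repr.symm
  have hT0 : T0 (b 0) = 1 := by
    simp only [T0, LinearIsometryEquiv.trans_apply, b.repr_self,
      Complex.orthonormalBasisOneI.repr_symm_single]
    simp
  have hT1 : T0 (b 1) = Complex.I := by
    simp only [T0, LinearIsometryEquiv.trans_apply, b.repr_self,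
      Complex.orthonormalBasisOneI.repr_symm_single]
    simp
  have hTc1 : T0 (γ t₁) - T0 (γ t₃) = (d1 : ℂ) := by
    have : γ t₁ - γ t₃ = d1 • b 0 := by
      rw [hb0]; simp [e, smul_smul, hd1pos.ne']
    rw [← map_sub, this, map_smul, hT0]; simp
  have hTc2 : T0 (γ t₂) - T0 (γ t₄) = (d2 : ℂ) * Complex.I := by
    have : γ t₂ - γ t₄ = d2 • b 1 := by
      rw [hb1]; simp [e, smul_smul, hd2pos.ne']
    rw [← map_sub, this, map_smul, hT1]; simp
  obtain ⟨w, hw⟩ : ∃ w : ℂ, w = ((T0 (γ t₂)).re : ℂ) + ((T0 (γ t₁)).im : ℂ) * Complex.I := ⟨_, rfl⟩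
  let T : Plane ≃ᵢ ℂ := T0.toIsometryEquiv.trans (IsometryEquiv.subRight w)
  have hTapp : ∀ x, T x = T0 x - w := fun x => rfl
  have hwre : w.re = (T0 (γ t₂)).re := by rw [hw]; simp
  have hwim : w.im = (T0 (γ t₁)).im := by rw [hw]; simp
  have r1 := congrArg Complex.re hTc1
  have i1 := congrArg Complex.im hTc1
  have r2 := congrArg Complex.re hTc2
  have i2 := congrArg Complex.im hTc2
  simp only [Complex.sub_re, Complex.sub_im, Complex.ofReal_re, Complex.ofReal_im, Complex.mul_re,
    Complex.mul_im, Complex.I_re, Complex.I_im, mul_zero, mul_one, sub_self, add_zero]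
    at r1 i1 r2 i2
  have hcfg : Cfg (T '' F) (fun t => T (γ t)) t₁ t₂ t₃ t₄ ((T (γ t₁)).re) ((T (γ t₂)).im)
      (-(T (γ t₃)).re) (-(T (γ t₄)).im) (eVariationOn γ (Icc 0 1) / 4) := by
    refine
      { conv := ?_
        comp := hcomp.image T.continuous
        nint := ?_
        cont := T.continuous.comp hγ.continuous
        per := fun t => by rw [hγ.periodic t]
        inj := fun s t hst hts heq => hinj s t hst hts (T.injective heq)
        rng := ?_
        h12 := h12
        h23 := h23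
        h34 := h34
        h41 := h41
        e1 := ?_
        e2 := ?_
        e3 := ?_
        e4 := ?_
        p13 := ?_
        p24 := ?_
        v1 := ?_
        v2 := ?_
        v3 := ?_
        v4 := ?_ }
    · have h1 : Convex ℝ (T0 '' F) := hconv.linear_image T0.toLinearEquiv.toLinearMap
      have h2 := h1.translate (-w)
      have h3 : T '' F = (fun z => -w + z) '' (T0 '' F) := by
        rw [image_image]
        apply image_congr
        intro x _
        rw [hTapp]; ring
      rw [h3]; exact h2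
    · have := T.toHomeomorph.image_interior F
      have h2 : interior (T '' F) = T '' interior F := this.symm
      rw [h2]
      exact hint.image _
    · have := T.toHomeomorph.image_frontier F
      have h2 : frontier (T '' F) = T '' frontier F := this.symm
      rw [h2, ← hγ.range_eq, ← range_comp]
      rfl
    · apply Complex.ext
      · simp
      · rw [hTapp, Complex.sub_im, hwim]; simp
    · apply Complex.ext
      · rw [hTapp, Complex.sub_re, hwre]; simp
      · simp
    · apply Complex.ext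
      · simp
      · rw [hTapp, Complex.sub_im, hwim]; simp; linarith
    · apply Complex.ext
      · rw [hTapp, Complex.sub_re, hwre]; simp; linarith
      · simp
    · rw [hTapp, hTapp, Complex.sub_re, Complex.sub_re]; linarith
    · rw [hTapp, hTapp, Complex.sub_im, Complex.sub_im]; linarith
    · rw [eVar_isometry T.isometry]; exact v1
    · rw [eVar_isometry T.isometry]; exact v2
    · rw [eVar_isometry T.isometry]; exact v3
    · rw [eVar_isometry T.isometry]; exact v4
  obtain ⟨l, hlpos, hL, hle, heq⟩ := hcfg.main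
  have hsum : (T (γ t₁)).re + (T (γ t₂)).im + -(T (γ t₃)).re + -(T (γ t₄)).im = d1 + d2 := by
    simp only [hTapp, Complex.sub_re, Complex.sub_im]; linarith
  rw [hsum] at hle heq
  have hLL : eVariationOn γ (Icc 0 1) = ENNReal.ofReal (4 * l) := by
    have h4 : eVariationOn γ (Icc 0 1) = 4 * (eVariationOn γ (Icc 0 1) / 4) := by
      rw [ENNReal.mul_div_cancel (by norm_num) (by norm_num)]
    rw [h4, hL, ENNReal.ofReal_mul (by norm_num)]
    norm_num
  rw [dist_eq_norm, dist_eq_norm, ← hd1, ← hd2, hLL]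
  refine ⟨ENNReal.ofReal_le_ofReal (by linarith), ?_⟩
  intro hE
  rw [ENNReal.ofReal_eq_ofReal_iff (by positivity) (by positivity)] at hE
  obtain ⟨h13, h24, s1, s2, s3, s4⟩ := heq (by linarith)
  have hrect := hcfg.rect hL (by rw [hsum]; linarith) h13 h24 s1 s2 s3 s4
  obtain ⟨hx1, hx2, hx3, hx4⟩ := hcfg.pos
  obtain ⟨X, hX⟩ : ∃ X, X = (T (γ t₁)).re := ⟨_, rfl⟩
  obtain ⟨Y, hY⟩ : ∃ Y, Y = (T (γ t₂)).im := ⟨_, rfl⟩
  rw [← hX] at hx1
  rw [← hY] at hx2
  simp only [← hX, ← hY] at hrect
  refine ⟨T.symm (-(X : ℂ) - Y * Complex.I), (2 * X) • b 0, (2 * Y) • b 1, ?_, ?_, ?_, ?_⟩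
  · rw [smul_ne_zero_iff]; exact ⟨by positivity, b.orthonormal.ne_zero 0⟩
  · rw [smul_ne_zero_iff]; exact ⟨by positivity, b.orthonormal.ne_zero 1⟩
  · rw [inner_smul_left, inner_smul_right, b.orthonormal.2 (by decide : (0 : Fin 2) ≠ 1)]; simp
  · -- description of `F`
    have hTc : ∀ s t : ℝ, T (T.symm (-(X : ℂ) - Y * Complex.I) + s • (2 * X) • b 0
        + t • (2 * Y) • b 1) = ((2 * s - 1) * X : ℝ) + ((2 * t - 1) * Y : ℝ) * Complex.I := by
      intro s t
      have h0 : T0 (T.symm (-(X : ℂ) - Y * Complex.I)) = -(X : ℂ) - Y * Complex.I + w := by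
        have := T.apply_symm_apply (-(X : ℂ) - Y * Complex.I)
        rw [hTapp] at this
        linear_combination this
      rw [hTapp, map_add, map_add, map_smul, map_smul, map_smul, map_smul, hT0, hT1, h0]
      simp only [Complex.real_smul]
      push_cast
      ring
    ext x
    constructor
    · intro hx
      obtain ⟨⟨h1, h2⟩, ⟨h3, h4⟩⟩ := (hrect (T x)).mp ⟨x, hx, rfl⟩
      refine ⟨((T x).re + X) / (2 * X), ⟨by apply div_nonneg <;> linarith,
        by rw [div_le_one (by linarith)]; linarith⟩, ((T x).im + Y) / (2 * Y),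
        ⟨by apply div_nonneg <;> linarith, by rw [div_le_one (by linarith)]; linarith⟩, ?_⟩
      apply T.injective
      rw [hTc]
      apply Complex.ext
      · simp only [Complex.add_re, Complex.ofReal_re, Complex.mul_re, Complex.I_re, mul_zero,
          Complex.ofReal_im, Complex.I_im, mul_one, sub_self, add_zero]
        field_simp
        ring
      · simp only [Complex.add_im, Complex.ofReal_im, Complex.mul_im, Complex.I_re, mul_zero,
          Complex.ofReal_re, Complex.I_im, mul_one, zero_add, add_zero]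
        field_simp
        ring
    · rintro ⟨s, ⟨hs0, hs1⟩, t, ⟨ht0, ht1⟩, rfl⟩
      have hmem : T (T.symm (-(X : ℂ) - Y * Complex.I) + s • (2 * X) • b 0
        + t • (2 * Y) • b 1) ∈ T '' F := by
        rw [hrect, hTc]
        simp only [Complex.add_re, Complex.ofReal_re, Complex.mul_re, Complex.I_re, mul_zero,
          Complex.ofReal_im, Complex.I_im, mul_one, sub_self, add_zero, Complex.add_im,
          Complex.mul_im, zero_add]
        refine ⟨⟨?_, ?_⟩, ⟨?_, ?_⟩⟩
        · nlinarith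
        · nlinarith
        · nlinarith
        · nlinarith
      obtain ⟨y, hy, hy'⟩ := hmem
      rwa [← T.injective hy']

/-- **Full answer to the question.** Let `F` be a plane convex figure (compact, convex, nonempty
interior) with boundary curve `γ`, and let `[p₁, q₁]`, `[p₂, q₂]` be perpendicular chords that
quadrisect the perimeter. Then `L(F) ≤ 2 (|p₁ q₁| + |p₂ q₂|)`, and equality holds only if `F` is a
rectangle. -/
theorem result (F : Set Plane) (hconv : Convex ℝ F) (hcomp : IsCompact F)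
    (hint : (interior F).Nonempty) (γ : ℝ → Plane) (hγ : IsBoundaryCurve F γ)
    (p₁ q₁ p₂ q₂ : Plane) (hquad : Quadrisect γ p₁ q₁ p₂ q₂)
    (hperp : inner ℝ (p₁ - q₁) (p₂ - q₂) = 0) :
    eVariationOn γ (Icc 0 1) ≤ ENNReal.ofReal (2 * (dist p₁ q₁ + dist p₂ q₂)) ∧
    (eVariationOn γ (Icc 0 1) = ENNReal.ofReal (2 * (dist p₁ q₁ + dist p₂ q₂)) →
      IsRectangle F) :=
  aux F hconv hcomp hint γ hγ p₁ q₁ p₂ q₂ hquad hperp

end Pool.Agent.Results.MP_bff4fe_gt.PerpQuadrisect
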